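import Pool.Agent.H72.B.C4c

/-!
# Module C4 of MP_02e9fb_an: the corner-free system
-/

namespace Pool.Agent.H72.B

open Finset Filter Topology MeasureTheory Pool.Agent.H84.B

/-- sequences indexed by the plane -/
abbrev Om2 : Type := ℤ × ℤ → Bool

/-- the shift by `c` -/
def sh (c : ℤ × ℤ) : Om2 ≃ᵐ Om2 where
  toFun a := fun u => a (u + c)
  invFun a := fun u => a (u - c)
  left_inv a := by ext u; simp
  right_inv a := by ext u; simp
  measurable_toFun := measurable_pi_lambda _ fun u => measurable_pi_apply _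
  measurable_invFun := measurable_pi_lambda _ fun u => measurable_pi_apply _

@[simp] lemma sh_apply (c : ℤ × ℤ) (a : Om2) (u : ℤ × ℤ) : sh c a u = a (u + c) := rfl

def shHom : Multiplicative (ℤ × ℤ) →* Equiv.Perm Om2 where
  toFun c := (sh c.toAdd).toEquiv
  map_one' := by
    ext a u
    simp [sh_apply]
  map_mul' c c' := by
    ext a u
    change a (u + (c * c').toAdd) = a (u + c.toAdd + c'.toAdd)
    rw [toAdd_mul, add_assoc]

lemma sh_zpow (c : ℤ × ℤ) (s : ℤ) (a : Om2) (u : ℤ × ℤ) :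
    ((sh c).toEquiv ^ s) a u = a (u + s • c) := by
  have h : (sh c).toEquiv = shHom (Multiplicative.ofAdd c) := rfl
  rw [h, ← map_zpow, ← ofAdd_zsmul]
  rfl

/-- average over the square -/
noncomputable def av (N : ℕ) (Φ : ℤ → ℤ → Om2) : Measure Om2 :=
  ((N : ENNReal) * N)⁻¹ • ∑ z ∈ range N ×ˢ range N, Measure.dirac (Φ ((z.1 : ℕ) : ℤ) ((z.2 : ℕ) : ℤ))

lemma av_apply (N : ℕ) (Φ : ℤ → ℤ → Om2) (C : Set Om2) (hC : MeasurableSet C)
    [DecidablePred fun z : ℕ × ℕ => Φ ((z.1 : ℕ) : ℤ) ((z.2 : ℕ) : ℤ) ∈ C] :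
    av N Φ C = ((N : ENNReal) * N)⁻¹ *
      (#{z ∈ range N ×ˢ range N | Φ ((z.1 : ℕ) : ℤ) ((z.2 : ℕ) : ℤ) ∈ C} : ℕ) := by
  unfold av
  rw [Measure.smul_apply, Measure.finsetSum_apply, smul_eq_mul]
  congr 1
  rw [Finset.card_filter]
  push_cast
  apply Finset.sum_congr rfl
  intro z _
  rw [Measure.dirac_apply' _ hC, Set.indicator_apply]
  simp

lemma av_prob (N : ℕ) (hN : 0 < N) (Φ : ℤ → ℤ → Om2) : IsProbabilityMeasure (av N Φ) := by
  constructor
  classical
  rw [av_apply _ _ _ MeasurableSet.univ]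
  simp only [Set.mem_univ, Finset.filter_true, Finset.card_product, Finset.card_range]
  push_cast
  apply ENNReal.inv_mul_cancel
  · simp; omega
  · exact ENNReal.mul_ne_top (ENNReal.natCast_ne_top _) (ENNReal.natCast_ne_top _)

lemma sum_shift (N : ℕ) (h : ℕ → ℕ) (hN : h N = h 0) :
    ∑ x ∈ range N, h (x + 1) = ∑ x ∈ range N, h x := by
  have h1 := Finset.sum_range_succ h N
  have h2 := Finset.sum_range_succ' h N
  omega

open Classical in
lemma card_shift1 (N : ℕ) (P : ℤ → ℤ → Prop) (hP : ∀ x y, P (x + N) y ↔ P x y) :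
    #{z ∈ range N ×ˢ range N | P (((z.1 : ℕ) : ℤ) + 1) ((z.2 : ℕ) : ℤ)}
      = #{z ∈ range N ×ˢ range N | P ((z.1 : ℕ) : ℤ) ((z.2 : ℕ) : ℤ)} := by
  rw [Finset.card_filter, Finset.card_filter, Finset.sum_product, Finset.sum_product]
  have := sum_shift N (fun x => ∑ y ∈ range N, if P ((x : ℕ) : ℤ) ((y : ℕ) : ℤ) then 1 else 0) (by
    apply Finset.sum_congr rfl
    intro y _
    have := hP 0 y
    rw [zero_add] at this
    simp only [this]
    norm_num)
  rw [← this]
  push_cast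
  rfl

open Classical in
lemma card_shift2 (N : ℕ) (P : ℤ → ℤ → Prop) (hP : ∀ x y, P x (y + N) ↔ P x y) :
    #{z ∈ range N ×ˢ range N | P ((z.1 : ℕ) : ℤ) (((z.2 : ℕ) : ℤ) + 1)}
      = #{z ∈ range N ×ˢ range N | P ((z.1 : ℕ) : ℤ) ((z.2 : ℕ) : ℤ)} := by
  rw [Finset.card_filter, Finset.card_filter, Finset.sum_product, Finset.sum_product]
  apply Finset.sum_congr rfl
  intro x _
  have := sum_shift N (fun y => if P ((x : ℕ) : ℤ) ((y : ℕ) : ℤ) then 1 else 0) (by
    have := hP x 0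
    rw [zero_add] at this
    simp only [this]
    norm_num)
  rw [← this]
  push_cast
  rfl

lemma cyl_shift (s : Finset (ℤ × ℤ)) (C : Set Om2)
    (hC : ∀ a b : Om2, (∀ i ∈ s, a i = b i) → (a ∈ C ↔ b ∈ C)) (c : ℤ × ℤ) :
    ∀ a b : Om2, (∀ i ∈ s.image (· + c), a i = b i) → (a ∈ (sh c) ⁻¹' C ↔ b ∈ (sh c) ⁻¹' C) := by
  intro a b h
  simp only [Set.mem_preimage]
  apply hC
  intro i hi
  exact h _ (Finset.mem_image_of_mem _ hi)

theorem c4 (hl : T_lim) (hce : T_cylext) : T_C4 := by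
  classical
  intro pp nn G hp hn hd hG
  choose a b hab using fun M => exists_dense (pp := pp) hd hG M
  set Φ : ℕ → ℤ → ℤ → Om2 :=
    fun M x y u => decide ((x + u.1, y + u.2) ∈ BM pp nn G M (a M) (b M)) with hΦ
  have hper1 : ∀ M x y, Φ M (x + nn M) y = Φ M x y := by
    intro M x y
    ext u
    simp only [hΦ]
    have := BM_add_left (G := G) hn hd M (a M) (b M) (x + u.1) (y + u.2) 1
    rw [mul_one] at this
    rw [← this]
    rw [add_right_comm]
  have hper2 : ∀ M x y, Φ M x (y + nn M) = Φ M x y := by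
    intro M x y
    ext u
    simp only [hΦ]
    have := BM_add_right (G := G) hn hd M (a M) (b M) (x + u.1) (y + u.2) 1
    rw [mul_one] at this
    rw [← this]
    rw [add_right_comm]
  have hsh1 : ∀ M x y, sh (1, 0) (Φ M x y) = Φ M (x + 1) y := by
    intro M x y
    ext u
    simp only [hΦ, sh_apply, Prod.fst_add, Prod.snd_add, add_zero]
    rw [← add_assoc, add_right_comm]
  have hsh2 : ∀ M x y, sh (0, 1) (Φ M x y) = Φ M x (y + 1) := by
    intro M x y
    ext u
    simp only [hΦ, sh_apply, Prod.fst_add, Prod.snd_add, add_zero]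
    rw [← add_assoc, add_right_comm y]
  obtain ⟨m, hm, U, hU, hlim⟩ := hl (ℤ × ℤ) (fun M => av (nn M) (Φ M))
    (fun M => av_prob _ (hn M) _)
  -- invariance
  have hinv : ∀ c : ℤ × ℤ, (∀ (M : ℕ) (C : Set Om2), MeasurableSet C →
      av (nn M) (Φ M) ((sh c) ⁻¹' C) = av (nn M) (Φ M) C) → MeasurePreserving (sh c) m m := by
    intro c hc
    refine ⟨(sh c).measurable, ?_⟩
    haveI : IsProbabilityMeasure (m.map (sh c)) :=
      Measure.isProbabilityMeasure_map (sh c).measurable.aemeasurable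
    apply hce (ℤ × ℤ) _ _ inferInstance hm
    intro s C hC
    obtain ⟨hCm, hCl⟩ := hlim s C hC
    obtain ⟨hCm', hCl'⟩ := hlim _ _ (cyl_shift s C hC c)
    rw [(sh c).map_apply]
    have : (fun M => av (nn M) (Φ M) ((sh c) ⁻¹' C)) = fun M => av (nn M) (Φ M) C := by
      funext M
      exact hc M C hCm
    rw [this] at hCl'
    exact tendsto_nhds_unique hCl' hCl
  have hmp1 : MeasurePreserving (sh (1, 0)) m m := by
    apply hinv
    intro M C hC
    rw [av_apply _ _ _ hC, av_apply _ _ _ ((sh (1, 0)).measurable hC)]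
    congr 2
    have := card_shift1 (nn M) (fun x y => Φ M x y ∈ C) (fun x y => by rw [hper1])
    rw [← this]
    congr 1
    ext z
    simp only [mem_filter, Set.mem_preimage, hsh1]
  have hmp2 : MeasurePreserving (sh (0, 1)) m m := by
    apply hinv
    intro M C hC
    rw [av_apply _ _ _ hC, av_apply _ _ _ ((sh (0, 1)).measurable hC)]
    congr 2
    have := card_shift2 (nn M) (fun x y => Φ M x y ∈ C) (fun x y => by rw [hper2])
    rw [← this]
    congr 1
    ext z
    simp only [mem_filter, Set.mem_preimage, hsh2]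
  have hBcyl : ∀ x y : Om2, (∀ i ∈ ({(0, 0)} : Finset (ℤ × ℤ)), x i = y i) →
      (x ∈ {a : Om2 | a (0, 0) = true} ↔ y ∈ {a : Om2 | a (0, 0) = true}) := by
    intro x y h
    simp only [Set.mem_ofPred_eq]
    rw [h (0, 0) (by simp)]
  obtain ⟨hBm, hBl⟩ := hlim {(0, 0)} {a : Om2 | a (0, 0) = true} hBcyl
  refine ⟨Om2, inferInstance, m, sh (1, 0), sh (0, 1), {a : Om2 | a (0, 0) = true}, hm, hmp1, hmp2,
    ?_, hBm, ?_, ?_⟩
  · intro ω
    ext u
    simp [sh_apply, add_assoc]
  · -- positivity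
    have h1 : (1 / 128 : ENNReal) ≤ m {a : Om2 | a (0, 0) = true} := by
      apply ge_of_tendsto hBl
      apply Eventually.of_forall
      intro M
      rw [av_apply _ _ _ hBm]
      have h2 := hab M
      have h3 : {z ∈ range (nn M) ×ˢ range (nn M) |
          Φ M ((z.1 : ℕ) : ℤ) ((z.2 : ℕ) : ℤ) ∈ {a : Om2 | a (0, 0) = true}} =
          {z ∈ range (nn M) ×ˢ range (nn M) |
            (((z.1 : ℕ) : ℤ), ((z.2 : ℕ) : ℤ)) ∈ BM pp nn G M (a M) (b M)} := by
        ext z
        simp [hΦ]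
      rw [h3]
      set K := #{z ∈ range (nn M) ×ˢ range (nn M) |
            (((z.1 : ℕ) : ℤ), ((z.2 : ℕ) : ℤ)) ∈ BM pp nn G M (a M) (b M)} with hK
      have h4 : nn M * nn M ≤ 128 * K := by
        have : (nn M : ℝ) * nn M ≤ 128 * K := by nlinarith
        exact_mod_cast this
      have h5 : ((nn M : ENNReal) * nn M) ≤ 128 * K := by exact_mod_cast h4
      have hne0 : ((nn M : ENNReal) * nn M) ≠ 0 := by
        have := hn M
        simp; omega
      have hnet : ((nn M : ENNReal) * nn M) ≠ ⊤ :=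
        ENNReal.mul_ne_top (ENNReal.natCast_ne_top _) (ENNReal.natCast_ne_top _)
      rw [mul_comm, ← div_eq_mul_inv, ENNReal.le_div_iff_mul_le (Or.inl hne0) (Or.inl hnet)]
      calc (1 / 128 : ENNReal) * ((nn M : ENNReal) * nn M) ≤ 1 / 128 * (128 * K) := by gcongr
        _ = (1 / 128 * 128) * K := by ring
        _ = K := by
          rw [ENNReal.div_mul_cancel (by norm_num) (by norm_num), one_mul]
    intro h0
    rw [h0] at h1
    norm_num at h1
  · intro q g hq hgq hg hA
    set s := g.sum fun e x => x * (nn e : ℤ) with hs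
    have hset : ({a : Om2 | a (0, 0) = true} ∩ ((sh (1, 0)).toEquiv ^ s) ⁻¹' {a : Om2 | a (0, 0) = true}
        ∩ ((sh (0, 1)).toEquiv ^ s) ⁻¹' {a : Om2 | a (0, 0) = true})
        = {a : Om2 | a (0, 0) = true ∧ a (s, 0) = true ∧ a (0, s) = true} := by
      ext x
      simp only [Set.mem_inter_iff, Set.mem_preimage, Set.mem_ofPred_eq, sh_zpow]
      simp [and_assoc]
    rw [hset]
    obtain ⟨hm3, hl3⟩ := hlim {(0, 0), (s, 0), (0, s)}
      {a : Om2 | a (0, 0) = true ∧ a (s, 0) = true ∧ a (0, s) = true} (by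
        intro x y h
        simp only [Set.mem_ofPred_eq]
        rw [h (0, 0) (by simp), h (s, 0) (by simp), h (0, s) (by simp)])
    have hzero : ∀ᶠ M in (U : Filter ℕ), av (nn M) (Φ M)
        {a : Om2 | a (0, 0) = true ∧ a (s, 0) = true ∧ a (0, s) = true} = 0 := by
      apply hU
      rw [mem_atTop_sets]
      obtain ⟨M0, hM0⟩ : ∃ M0, g.support ⊆ range M0 := by
        refine ⟨(g.support.sup id) + 1, ?_⟩
        intro i hi
        have : i ≤ g.support.sup id := Finset.le_sup (f := id) hi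
        simp only [mem_range]; omega
      refine ⟨M0, fun M hM => ?_⟩
      change av (nn M) (Φ M) _ = 0
      rw [av_apply _ _ _ hm3]
      have : {z ∈ range (nn M) ×ˢ range (nn M) | Φ M ((z.1 : ℕ) : ℤ) ((z.2 : ℕ) : ℤ) ∈
          {a : Om2 | a (0, 0) = true ∧ a (s, 0) = true ∧ a (0, s) = true}} = ∅ := by
        rw [Finset.filter_eq_empty_iff]
        rintro z _ ⟨h1, h2, h3⟩
        simp only [hΦ, decide_eq_true_eq, add_zero] at h1 h2 h3
        exact no_corner hp hn hd q hq g hgq hg hA M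
          (hM0.trans (Finset.range_mono hM)) (a M) (b M) _ _ h1 h2 h3
      rw [this]
      simp
    have : Tendsto (fun M => av (nn M) (Φ M)
        {a : Om2 | a (0, 0) = true ∧ a (s, 0) = true ∧ a (0, s) = true}) U (𝓝 0) :=
      tendsto_const_nhds.congr' (hzero.mono fun M h => h.symm)
    exact tendsto_nhds_unique hl3 this

end Pool.Agent.H72.B
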