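import Pool.Agent.H84.B.TargetsM

/-!
# Module C4 of MP_02e9fb_an, part 1: digits and the cocycle
-/

namespace Pool.Agent.H72.B

open Finset

/-- the constant `(p-1)/(2p^2)` -/
noncomputable def kap (p : ℕ) : ℝ := ((p : ℝ) - 1) / (2 * (p : ℝ) ^ 2)

noncomputable def f1 (p : ℕ) (u v : ℤ) : ℝ :=
  if (p : ℤ) ∣ v then (p : ℝ) * kap p * ((u % (p : ℤ) : ℤ) : ℝ) else 0

noncomputable def f2 (p : ℕ) (v : ℤ) : ℝ := -kap p * (((-v) % (p : ℤ) : ℤ) : ℝ)

lemma f1_add_left (p : ℕ) (u v k : ℤ) : f1 p (u + p * k) v = f1 p u v := by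
  unfold f1
  rw [Int.add_mul_emod_self_left]

lemma f1_add_right (p : ℕ) (u v k : ℤ) : f1 p u (v + p * k) = f1 p u v := by
  unfold f1
  have : (p : ℤ) ∣ v + p * k ↔ (p : ℤ) ∣ v := by
    constructor
    · intro h
      exact (Int.dvd_add_left (Dvd.intro k rfl)).mp h
    · intro h
      exact (Int.dvd_add_left (Dvd.intro k rfl)).mpr h
  simp only [this]

lemma f2_add (p : ℕ) (v k : ℤ) : f2 p (v + p * k) = f2 p v := by
  unfold f2
  have : (-(v + p * k)) % (p : ℤ) = (-v) % (p : ℤ) := by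
    have : -(v + p * k) = -v + p * (-k) := by ring
    rw [this, Int.add_mul_emod_self_left]
  rw [this]

/-- the coboundary identity, mod `1` -/
lemma cocycle (p : ℕ) (hp : p.Prime) (h2 : p ≠ 2) (u v : ℤ) :
    ∃ n : ℤ, f1 p (u + 1) v - f1 p u v + (f2 p (v + 1) - f2 p v) = kap p + n := by
  have hp0 : (0 : ℤ) < p := by exact_mod_cast hp.pos
  have hp1 : (1 : ℤ) < p := by exact_mod_cast hp.one_lt
  have hodd : Odd p := hp.odd_of_ne_two h2
  obtain ⟨m, hm⟩ := hodd
  have hpR : (p : ℝ) ≠ 0 := by exact_mod_cast hp.ne_zero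
  have hk : (p : ℝ) ^ 2 * kap p = m := by
    unfold kap
    rw [hm]
    have : ((2 * m + 1 : ℕ) : ℝ) ≠ 0 := by positivity
    field_simp
    push_cast
    ring
  by_cases hv : (p : ℤ) ∣ v
  · -- `v ≡ 0`
    obtain ⟨w, rfl⟩ := hv
    have e1 : f2 p (p * w + 1) - f2 p (p * w) = -kap p * ((p : ℝ) - 1) := by
      have h1 : f2 p (p * w + 1) = f2 p 1 := by
        rw [add_comm, f2_add]
      have h2 : f2 p (p * w) = f2 p 0 := by
        have := f2_add p 0 w
        rwa [zero_add] at this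
      rw [h1, h2]
      unfold f2
      have h3 : (-1 : ℤ) % (p : ℤ) = p - 1 := by
        have : (-1 : ℤ) = (p - 1) + p * (-1) := by ring
        rw [this, Int.add_mul_emod_self_left]
        exact Int.emod_eq_of_lt (by omega) (by omega)
      rw [h3]
      simp
    have e2 : ∃ n : ℤ, f1 p (u + 1) (p * w) - f1 p u (p * w) = p * kap p + n := by
      unfold f1
      rw [if_pos (Dvd.intro w rfl), if_pos (Dvd.intro w rfl)]
      have hu0 : 0 ≤ u % (p : ℤ) := Int.emod_nonneg _ hp0.ne'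
      have hu1 : u % (p : ℤ) < p := Int.emod_lt_of_pos _ hp0
      have hdm : u % (p : ℤ) + p * (u / p) = u := Int.emod_add_mul_ediv _ _
      by_cases hu : u % (p : ℤ) = p - 1
      · refine ⟨-m, ?_⟩
        have : (u + 1) % (p : ℤ) = 0 := by
          have : u + 1 = 0 + p * (u / p + 1) := by linarith
          rw [this, Int.add_mul_emod_self_left]
          simp
        rw [this, hu]
        push_cast
        rw [← hk]
        ring
      · refine ⟨0, ?_⟩
        have : (u + 1) % (p : ℤ) = u % p + 1 := by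
          have : u + 1 = (u % p + 1) + p * (u / p) := by linarith
          rw [this, Int.add_mul_emod_self_left]
          rw [Int.emod_eq_of_lt (by omega) (by omega)]
        rw [this]
        push_cast
        ring
    obtain ⟨n, hn⟩ := e2
    exact ⟨n, by rw [hn, e1]; ring⟩
  · refine ⟨0, ?_⟩
    have e1 : f1 p (u + 1) v = 0 := by unfold f1; rw [if_neg hv]
    have e2 : f1 p u v = 0 := by unfold f1; rw [if_neg hv]
    rw [e1, e2]
    have h0 : 0 ≤ (-v) % (p : ℤ) := Int.emod_nonneg _ hp0.ne'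
    have h1 : (-v) % (p : ℤ) < p := Int.emod_lt_of_pos _ hp0
    have hdm : (-v) % (p : ℤ) + p * ((-v) / p) = -v := Int.emod_add_mul_ediv _ _
    have h2 : (-v) % (p : ℤ) ≠ 0 := by
      intro h
      apply hv
      have := Int.dvd_of_emod_eq_zero h
      exact (Int.dvd_neg).mp this
    have h3 : (-(v + 1)) % (p : ℤ) = (-v) % p - 1 := by
      have : -(v + 1) = ((-v) % p - 1) + p * ((-v) / p) := by linarith
      rw [this, Int.add_mul_emod_self_left]
      exact Int.emod_eq_of_lt (by omega) (by omega)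
    unfold f2
    rw [h3]
    push_cast
    ring


/-! ## digits -/

section Digits

variable (pp nn G : ℕ → ℕ)

/-- `t_e` -/
def tt (e : ℕ) : ℕ := ∑ i ∈ range e, G i * nn i

/-- `x` is good at `e` -/
def Good (e : ℕ) (x : ℤ) : Prop := (tt nn G e : ℤ) ≤ x % (nn e : ℤ) ∧ x % (nn e : ℤ) < nn e - tt nn G e

variable {pp nn G}

lemma dvd_nn (hd : ∀ e, pp e * nn e ∣ nn (e + 1)) {i e : ℕ} (h : i < e) : pp i * nn i ∣ nn e := by
  induction e with
  | zero => omega
  | succ e ih =>
    rcases Nat.lt_succ_iff_lt_or_eq.mp h with h1 | h1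
    · exact (ih h1).trans ((Dvd.intro_left _ rfl).trans (hd e))
    · subst h1; exact hd i

/-- the shift of the quotient at a good place -/
lemma quot_shift (hn : ∀ e, 0 < nn e) (hd : ∀ e, pp e * nn e ∣ nn (e + 1))
    (g : ℕ →₀ ℤ) (hg : ∀ e, (g e).natAbs ≤ G e) (e : ℕ) (x : ℤ) (hx : Good nn G e x) :
    ∃ k : ℤ, (x + g.sum fun e x => x * nn e) / (nn e : ℤ) = (x / nn e + g e) + pp e * k := by
  obtain ⟨K, hK1, hK2⟩ : ∃ K, g.support ⊆ range K ∧ e < K := by
    refine ⟨(g.support.sup id) + e + 1, ?_, by omega⟩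
    intro i hi
    have : i ≤ g.support.sup id := Finset.le_sup (f := id) hi
    simp only [mem_range]; omega
  have hs : (g.sum fun e x => x * (nn e : ℤ)) = ∑ i ∈ range K, g i * (nn i : ℤ) := by
    rw [Finsupp.sum]
    apply Finset.sum_subset hK1
    intro i _ hi
    rw [Finsupp.notMem_support_iff.mp hi]; simp
  have hsplit : ∑ i ∈ range K, g i * (nn i : ℤ) = ∑ i ∈ range e, g i * (nn i : ℤ) +
      (g e * nn e + ∑ i ∈ Ico (e + 1) K, g i * (nn i : ℤ)) := by
    rw [← Finset.sum_range_add_sum_Ico _ (Nat.le_of_lt hK2), Finset.sum_eq_sum_Ico_succ_bot hK2]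
  have hlow : |∑ i ∈ range e, g i * (nn i : ℤ)| ≤ tt nn G e := by
    unfold tt
    push_cast
    refine (Finset.abs_sum_le_sum_abs _ _).trans ?_
    apply Finset.sum_le_sum
    intro i _
    rw [abs_mul, Nat.abs_cast]
    apply mul_le_mul_of_nonneg_right _ (by positivity)
    rw [Int.abs_eq_natAbs]
    exact_mod_cast hg i
  have hhigh : ∃ k : ℤ, ∑ i ∈ Ico (e + 1) K, g i * (nn i : ℤ) = (pp e * nn e : ℤ) * k := by
    have : ((pp e * nn e : ℕ) : ℤ) ∣ ∑ i ∈ Ico (e + 1) K, g i * (nn i : ℤ) := by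
      apply Finset.dvd_sum
      intro i hi
      apply Dvd.dvd.mul_left
      rw [Int.natCast_dvd_natCast]
      apply dvd_nn hd
      have := (Finset.mem_Ico.mp hi).1
      omega
    obtain ⟨k, hk⟩ := this
    exact ⟨k, by rw [hk]; push_cast; ring⟩
  obtain ⟨k, hk⟩ := hhigh
  refine ⟨k, ?_⟩
  have hne : (0 : ℤ) < nn e := by exact_mod_cast hn e
  obtain ⟨hx1, hx2⟩ := hx
  have hdm : x % (nn e : ℤ) + nn e * (x / nn e) = x := Int.emod_add_mul_ediv _ _
  obtain ⟨hl1, hl2⟩ := abs_le.mp hlow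
  have : x + (g.sum fun e x => x * (nn e : ℤ)) =
      (x % (nn e : ℤ) + ∑ i ∈ range e, g i * (nn i : ℤ)) + nn e * ((x / nn e + g e) + pp e * k) := by
    rw [hs, hsplit, hk]
    linear_combination (-1 : ℤ) * hdm
  rw [this, Int.add_mul_ediv_left _ _ hne.ne', Int.ediv_eq_zero_of_lt (by linarith) (by linarith)]
  ring

end Digits

end Pool.Agent.H72.B
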