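import Pool.Agent.H72.B.C4a

/-!
# Module C4 of MP_02e9fb_an, part 2: the corner-free sets
-/

namespace Pool.Agent.H72.B

open Finset Pool.Agent.H84.B

section

variable (pp nn G : ℕ → ℕ)

noncomputable def F1 (M : ℕ) (x y : ℤ) : ℝ := ∑ e ∈ range M, f1 (pp e) (x / nn e) (y / nn e)

noncomputable def F2 (M : ℕ) (y : ℤ) : ℝ := ∑ e ∈ range M, f2 (pp e) (y / nn e)

/-- the bin of a real number mod `1` -/
noncomputable def bin (r : ℝ) : ℤ := ⌊8 * Int.fract r⌋

lemma bin_mem (r : ℝ) : 0 ≤ bin r ∧ bin r < 8 := by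
  unfold bin
  have h0 := Int.fract_nonneg r
  have h1 := Int.fract_lt_one r
  constructor
  · exact Int.floor_nonneg.mpr (by positivity)
  · rw [Int.floor_lt]; push_cast; linarith

lemma bin_eq {r r' : ℝ} (h : bin r = bin r') : ∃ n : ℤ, |r' - r - n| < 1 / 8 := by
  refine ⟨⌊r'⌋ - ⌊r⌋, ?_⟩
  have h1 : |8 * Int.fract r' - 8 * Int.fract r| < 1 := Int.abs_sub_lt_one_of_floor_eq_floor h.symm
  have e1 := Int.self_sub_floor r
  have e2 := Int.self_sub_floor r'
  have : r' - r - ((⌊r'⌋ - ⌊r⌋ : ℤ) : ℝ) = (8 * Int.fract r' - 8 * Int.fract r) / 8 := by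
    rw [← e1, ← e2]; push_cast; ring
  rw [this, abs_div, abs_of_pos (by norm_num : (0 : ℝ) < 8)]
  linarith

/-- the set `B_M` with bins `a`, `b` -/
def BM (M : ℕ) (a b : ℤ) : Set (ℤ × ℤ) :=
  {z | (∀ e < M, Good nn G e z.1 ∧ Good nn G e z.2) ∧ bin (F1 pp nn M z.1 z.2) = a ∧
    bin (F2 pp nn M z.2) = b}

variable {pp nn G}

lemma step (hp : ∀ e, (pp e).Prime ∧ pp e ≠ 2) (hn : ∀ e, 0 < nn e)
    (hd : ∀ e, pp e * nn e ∣ nn (e + 1))
    (q : ℕ) (hq : q.Prime) (g : ℕ →₀ ℤ) (hgq : ∀ e, g e ≠ 0 → pp e = q)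
    (hg : ∀ e, (g e).natAbs ≤ G e) (hr : ∀ i, ((g i : ℤ) : ZMod q) = 0 ∨ ((g i : ℤ) : ZMod q) = 1)
    (e : ℕ) (x y : ℤ) (hx : Good nn G e x) (hy : Good nn G e y) :
    ∃ n : ℤ, f1 (pp e) ((x + g.sum fun e x => x * nn e) / nn e) (y / nn e)
        - f1 (pp e) (x / nn e) (y / nn e)
        + (f2 (pp e) ((y + g.sum fun e x => x * nn e) / nn e) - f2 (pp e) (y / nn e))
      = (if ((g e : ℤ) : ZMod q) = 1 then kap q else 0) + n := by
  haveI : Fact q.Prime := ⟨hq⟩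
  obtain ⟨k, hk⟩ := quot_shift hn hd g hg e x hx
  obtain ⟨l, hl⟩ := quot_shift hn hd g hg e y hy
  rw [hk, hl]
  rw [f1_add_left, f2_add]
  by_cases h1 : ((g e : ℤ) : ZMod q) = 1
  · rw [if_pos h1]
    have hge : g e ≠ 0 := by
      intro h; rw [h] at h1; simp at h1
    have hpe := hgq e hge
    have : (q : ℤ) ∣ g e - 1 := by
      rw [← ZMod.intCast_zmod_eq_zero_iff_dvd]
      push_cast
      rw [h1]; ring
    obtain ⟨c, hc⟩ := this
    have e1 : x / (nn e : ℤ) + g e = (x / nn e + 1) + pp e * c := by rw [hpe]; linarith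
    have e2 : y / (nn e : ℤ) + g e = (y / nn e + 1) + pp e * c := by rw [hpe]; linarith
    rw [e1, e2, f1_add_left, f2_add]
    obtain ⟨n, hn'⟩ := cocycle (pp e) (hp e).1 (hp e).2 (x / nn e) (y / nn e)
    exact ⟨n, by rw [hn', hpe]⟩
  · rw [if_neg h1]
    have h0 : ((g e : ℤ) : ZMod q) = 0 := (hr e).resolve_right h1
    have : (pp e : ℤ) ∣ g e := by
      by_cases hge : g e = 0
      · rw [hge]; exact dvd_zero _
      · rw [hgq e hge]
        exact (ZMod.intCast_zmod_eq_zero_iff_dvd _ _).mp h0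
    obtain ⟨c, hc⟩ := this
    rw [hc, f1_add_left, f2_add]
    exact ⟨0, by simp⟩

/-- no corner in `B_M` with a good difference -/
lemma no_corner (hp : ∀ e, (pp e).Prime ∧ pp e ≠ 2) (hn : ∀ e, 0 < nn e)
    (hd : ∀ e, pp e * nn e ∣ nn (e + 1))
    (q : ℕ) (hq : q.Prime) (g : ℕ →₀ ℤ) (hgq : ∀ e, g e ≠ 0 → pp e = q)
    (hg : ∀ e, (g e).natAbs ≤ G e) (hA : AdmF (Int.castRingHom (ZMod q)) g)
    (M : ℕ) (hM : g.support ⊆ range M) (a b x y : ℤ)
    (h1 : (x, y) ∈ BM pp nn G M a b) (h2 : (x + g.sum fun e x => x * nn e, y) ∈ BM pp nn G M a b)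
    (h3 : (x, y + g.sum fun e x => x * nn e) ∈ BM pp nn G M a b) : False := by
  haveI : Fact q.Prime := ⟨hq⟩
  obtain ⟨hr, t, ht1, ht2⟩ := hA
  simp only [eq_intCast] at hr ht1
  set s := g.sum fun e x => x * (nn e : ℤ) with hs
  obtain ⟨hgood, ha, hb⟩ := h1
  obtain ⟨-, ha', -⟩ := h2
  obtain ⟨-, -, hb'⟩ := h3
  obtain ⟨n1, hn1⟩ := bin_eq (ha.trans ha'.symm)
  obtain ⟨n2, hn2⟩ := bin_eq (hb.trans hb'.symm)
  simp only at hn1 hn2 hgood
  have hstep : ∀ e, ∃ n : ℤ, e < M → f1 (pp e) ((x + s) / nn e) (y / nn e)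
        - f1 (pp e) (x / nn e) (y / nn e)
        + (f2 (pp e) ((y + s) / nn e) - f2 (pp e) (y / nn e))
      = (if ((g e : ℤ) : ZMod q) = 1 then kap q else 0) + n := by
    intro e
    by_cases he : e < M
    · obtain ⟨n, hn'⟩ := step hp hn hd q hq g hgq hg hr e x y (hgood e he).1 (hgood e he).2
      exact ⟨n, fun _ => hn'⟩
    · exact ⟨0, fun h => absurd h he⟩
  choose N hN using hstep
  have hsum : F1 pp nn M (x + s) y - F1 pp nn M x y + (F2 pp nn M (y + s) - F2 pp nn M y)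
      = (q * t : ℕ) * kap q + ((∑ e ∈ range M, N e : ℤ) : ℝ) := by
    unfold F1 F2
    rw [← Finset.sum_sub_distrib, ← Finset.sum_sub_distrib, ← Finset.sum_add_distrib]
    rw [Finset.sum_congr rfl (fun e he => hN e (mem_range.mp he))]
    rw [Finset.sum_add_distrib]
    congr 1
    · rw [← Finset.sum_filter, Finset.sum_const, nsmul_eq_mul]
      congr 2
      rw [← ht1, ← Set.ncard_coe_finset]
      congr 1
      ext i
      simp only [coe_filter, mem_range, Set.mem_ofPred_eq]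
      constructor
      · exact fun h => h.2
      · intro h
        refine ⟨?_, h⟩
        have : i ∈ g.support := by
          rw [Finsupp.mem_support_iff]
          intro h0; rw [h0] at h; simp at h
        exact mem_range.mp (hM this)
    · push_cast; rfl
  -- t = 1 + q r, q = 2m+1
  have hq2 : q ≠ 2 := by
    intro h
    by_cases hg0 : g = 0
    · subst hg0
      have : {i : ℕ | (((0 : ℕ →₀ ℤ) i : ℤ) : ZMod q) = 1} = ∅ := by
        ext i; simp
      rw [this] at ht1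
      simp at ht1
      rcases ht1 with h' | h'
      · exact hq.ne_zero h'
      · rw [h'] at ht2
        have := (Nat.modEq_iff_dvd' (by omega : 0 ≤ 1)).mp ht2
        rw [h] at this; norm_num at this
    · obtain ⟨i, hi⟩ := Finsupp.ne_iff.mp hg0
      have := hgq i (by simpa using hi)
      exact (hp i).2 (this.trans h)
  have hq1 : 1 < q := hq.one_lt
  have ht0 : 1 ≤ t := by
    rcases Nat.eq_zero_or_pos t with h | h
    · exfalso
      rw [h] at ht2
      have := (Nat.modEq_iff_dvd' (by omega : 0 ≤ 1)).mp ht2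
      have := Nat.le_of_dvd (by norm_num) this
      omega
    · exact h
  obtain ⟨r, hr'⟩ : ∃ r, t = 1 + q * r := by
    obtain ⟨r, hr'⟩ := (Nat.modEq_iff_dvd' ht0).mp ht2.symm
    exact ⟨r, by omega⟩
  obtain ⟨m, hm⟩ := hq.odd_of_ne_two hq2
  have hm1 : 1 ≤ m := by omega
  have hmR : (1 : ℝ) ≤ m := by exact_mod_cast hm1
  have hval : ((q * t : ℕ) : ℝ) * kap q = m / (2 * m + 1) + ((m * r : ℕ) : ℤ) := by
    rw [hr']
    unfold kap
    rw [hm]
    push_cast
    field_simp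
    ring
  have hm2 : (m : ℝ) / (2 * m + 1) < 1 / 2 := by
    rw [div_lt_div_iff₀ (by positivity) (by norm_num)]; linarith
  have hm3 : (1 : ℝ) / 3 ≤ (m : ℝ) / (2 * m + 1) := by
    rw [div_le_div_iff₀ (by norm_num) (by positivity)]; linarith
  rw [hval] at hsum
  obtain ⟨a1, a2⟩ := abs_lt.mp hn1
  obtain ⟨a3, a4⟩ := abs_lt.mp hn2
  set K : ℤ := ((m * r : ℕ) : ℤ) + (∑ e ∈ range M, N e) - n1 - n2 with hK
  have hKR : (K : ℝ) = ((m * r : ℕ) : ℤ) + ((∑ e ∈ range M, N e : ℤ) : ℝ) - n1 - n2 := by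
    rw [hK]; push_cast; ring
  have h5 : (K : ℝ) < 0 := by
    rw [hKR]; linarith
  have h6 : (-1 : ℝ) < K := by
    rw [hKR]; linarith
  have h7 : K < 0 := by exact_mod_cast h5
  have h8 : -1 < K := by exact_mod_cast h6
  omega

/-! ### periodicity -/

lemma Good_add (hd : ∀ e, pp e * nn e ∣ nn (e + 1)) {e M : ℕ} (he : e < M) (x k : ℤ) :
    Good nn G e (x + nn M * k) ↔ Good nn G e x := by
  unfold Good
  obtain ⟨c, hc⟩ := (Dvd.intro_left _ rfl : nn e ∣ pp e * nn e).trans (dvd_nn hd he)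
  have : (x + nn M * k) % (nn e : ℤ) = x % nn e := by
    rw [hc]; push_cast
    rw [mul_assoc, Int.add_mul_emod_self_left]
  rw [this]

lemma quot_add (hn : ∀ e, 0 < nn e) (hd : ∀ e, pp e * nn e ∣ nn (e + 1)) {e M : ℕ} (he : e < M)
    (x k : ℤ) : ∃ l : ℤ, (x + nn M * k) / (nn e : ℤ) = x / nn e + pp e * l := by
  obtain ⟨c, hc⟩ := dvd_nn hd he
  refine ⟨c * k, ?_⟩
  have hne : (nn e : ℤ) ≠ 0 := by exact_mod_cast (hn e).ne'
  have : x + (nn M : ℤ) * k = x + (pp e * (c * k)) * nn e := by rw [hc]; push_cast; ring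
  rw [this, Int.add_mul_ediv_right _ _ hne]

lemma BM_add_left (hn : ∀ e, 0 < nn e) (hd : ∀ e, pp e * nn e ∣ nn (e + 1)) (M : ℕ) (a b x y k : ℤ) :
    (x + nn M * k, y) ∈ BM pp nn G M a b ↔ (x, y) ∈ BM pp nn G M a b := by
  unfold BM
  have h1 : F1 pp nn M (x + nn M * k) y = F1 pp nn M x y := by
    unfold F1
    apply Finset.sum_congr rfl
    intro e he
    obtain ⟨l, hl⟩ := quot_add hn hd (mem_range.mp he) x k
    rw [hl, f1_add_left]
  simp only [Set.mem_ofPred_eq, h1]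
  constructor
  · rintro ⟨h, h'⟩
    exact ⟨fun e he => ⟨(Good_add hd he x k).mp (h e he).1, (h e he).2⟩, h'⟩
  · rintro ⟨h, h'⟩
    exact ⟨fun e he => ⟨(Good_add hd he x k).mpr (h e he).1, (h e he).2⟩, h'⟩

lemma BM_add_right (hn : ∀ e, 0 < nn e) (hd : ∀ e, pp e * nn e ∣ nn (e + 1)) (M : ℕ)
    (a b x y k : ℤ) :
    (x, y + nn M * k) ∈ BM pp nn G M a b ↔ (x, y) ∈ BM pp nn G M a b := by
  unfold BM
  have h1 : F1 pp nn M x (y + nn M * k) = F1 pp nn M x y := by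
    unfold F1
    apply Finset.sum_congr rfl
    intro e he
    obtain ⟨l, hl⟩ := quot_add hn hd (mem_range.mp he) y k
    rw [hl, f1_add_right]
  have h2 : F2 pp nn M (y + nn M * k) = F2 pp nn M y := by
    unfold F2
    apply Finset.sum_congr rfl
    intro e he
    obtain ⟨l, hl⟩ := quot_add hn hd (mem_range.mp he) y k
    rw [hl, f2_add]
  simp only [Set.mem_ofPred_eq, h1, h2]
  constructor
  · rintro ⟨h, h'⟩
    exact ⟨fun e he => ⟨(h e he).1, (Good_add hd he y k).mp (h e he).2⟩, h'⟩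
  · rintro ⟨h, h'⟩
    exact ⟨fun e he => ⟨(h e he).1, (Good_add hd he y k).mpr (h e he).2⟩, h'⟩

end

end Pool.Agent.H72.B
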