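import Pool.Agent.H72.B.C4b

/-!
# Module C4 of MP_02e9fb_an, part 3: density
-/

namespace Pool.Agent.H72.B

open Finset Pool.Agent.H84.B

lemma count_periodic (P : ℕ → Prop) [DecidablePred P] (m : ℕ) (h : ∀ c k, P (m * c + k) ↔ P k)
    (c : ℕ) : Nat.count P (m * c) = c * Nat.count P m := by
  induction c with
  | zero => simp
  | succ c ih =>
    rw [mul_add, mul_one, Nat.count_add, ih]
    have : (fun k => P (m * c + k)) = P := by
      ext k; exact h c k
    simp only [this]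
    ring

section

variable {pp nn G : ℕ → ℕ}

open Classical in
lemma bad_count (hd : ∀ e, pp e * nn e ∣ nn (e + 1))
    (hG : ∀ e, 2 ^ (e + 4) * (∑ i ∈ Finset.range e, G i * nn i) ≤ nn e) {e M : ℕ} (he : e < M) :
    2 ^ (e + 3) * #{x ∈ range (nn M) | ¬ Good nn G e ((x : ℕ) : ℤ)} ≤ nn M := by
  obtain ⟨c, hc⟩ := (Dvd.intro_left _ rfl : nn e ∣ pp e * nn e).trans (dvd_nn hd he)
  have h1 : #{x ∈ range (nn M) | ¬ Good nn G e ((x : ℕ) : ℤ)}
      = Nat.count (fun x : ℕ => ¬ Good nn G e (x : ℤ)) (nn M) := by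
    rw [Nat.count_eq_card_filter_range]
  rw [h1, hc, count_periodic]
  · have h2 : Nat.count (fun x : ℕ => ¬ Good nn G e (x : ℤ)) (nn e) ≤ 2 * tt nn G e := by
      rw [Nat.count_eq_card_filter_range]
      have : {x ∈ range (nn e) | ¬ Good nn G e ((x : ℕ) : ℤ)} ⊆
          range (tt nn G e) ∪ Ico (nn e - tt nn G e) (nn e) := by
        intro x hx
        simp only [mem_filter, mem_range] at hx
        simp only [mem_union, mem_range, mem_Ico]
        obtain ⟨hx1, hx2⟩ := hx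
        unfold Good at hx2
        have : ((x : ℕ) : ℤ) % (nn e : ℤ) = x := by
          apply Int.emod_eq_of_lt (by positivity)
          exact_mod_cast hx1
        rw [this] at hx2
        omega
      refine (Finset.card_le_card this).trans ((Finset.card_union_le _ _).trans ?_)
      rw [Finset.card_range, Nat.card_Ico]
      omega
    have h3 := hG e
    have h4 : 2 ^ (e + 4) * tt nn G e ≤ nn e := h3
    calc 2 ^ (e + 3) * (c * Nat.count (fun x : ℕ => ¬ Good nn G e (x : ℤ)) (nn e))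
        ≤ 2 ^ (e + 3) * (c * (2 * tt nn G e)) := by gcongr
      _ = c * (2 ^ (e + 4) * tt nn G e) := by ring
      _ ≤ c * nn e := by gcongr
      _ = nn e * c := by ring
  · intro c k
    have : Good nn G e ((nn e * c + k : ℕ) : ℤ) ↔ Good nn G e (k : ℤ) := by
      unfold Good
      have : ((nn e * c + k : ℕ) : ℤ) % (nn e : ℤ) = (k : ℤ) % nn e := by
        push_cast
        rw [add_comm, Int.add_mul_emod_self_left]
      rw [this]
    exact not_congr this

lemma geom_quarter (M : ℕ) : ∑ e ∈ range M, (1 : ℝ) / 2 ^ (e + 3) ≤ 1 / 4 := by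
  have : ∀ M : ℕ, ∑ e ∈ range M, (1 : ℝ) / 2 ^ (e + 3) = 1 / 4 - 1 / 2 ^ (M + 2) := by
    intro M
    induction M with
    | zero => norm_num
    | succ M ih =>
      rw [Finset.sum_range_succ, ih]
      field_simp
      ring
  rw [this]
  have : (0 : ℝ) < 1 / 2 ^ (M + 2) := by positivity
  linarith

open Classical in
lemma good_count (hd : ∀ e, pp e * nn e ∣ nn (e + 1))
    (hG : ∀ e, 2 ^ (e + 4) * (∑ i ∈ Finset.range e, G i * nn i) ≤ nn e) (M : ℕ) :
    (3 / 4 : ℝ) * nn M ≤ #{x ∈ range (nn M) | ∀ e < M, Good nn G e ((x : ℕ) : ℤ)} := by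
  have h1 : (range (nn M)).filter (fun x => ¬ ∀ e < M, Good nn G e ((x : ℕ) : ℤ)) ⊆
      (range M).biUnion (fun e => {x ∈ range (nn M) | ¬ Good nn G e ((x : ℕ) : ℤ)}) := by
    intro x hx
    simp only [mem_filter, mem_range, not_forall] at hx
    obtain ⟨hx1, e, he, hx2⟩ := hx
    simp only [mem_biUnion, mem_range, mem_filter]
    exact ⟨e, he, hx1, hx2⟩
  have h2 : (#((range (nn M)).filter (fun x => ¬ ∀ e < M, Good nn G e ((x : ℕ) : ℤ))) : ℝ)
      ≤ (1 / 4 : ℝ) * nn M := by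
    calc (#((range (nn M)).filter (fun x => ¬ ∀ e < M, Good nn G e ((x : ℕ) : ℤ))) : ℝ)
        ≤ ((∑ e ∈ range M, #{x ∈ range (nn M) | ¬ Good nn G e ((x : ℕ) : ℤ)} : ℕ) : ℝ) := by
          exact_mod_cast (Finset.card_le_card h1).trans Finset.card_biUnion_le
      _ = ∑ e ∈ range M, (#{x ∈ range (nn M) | ¬ Good nn G e ((x : ℕ) : ℤ)} : ℝ) := by push_cast; rfl
      _ ≤ ∑ e ∈ range M, (1 : ℝ) / 2 ^ (e + 3) * nn M := by
          apply Finset.sum_le_sum
          intro e he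
          have h3 := bad_count hd hG (mem_range.mp he)
          have h4 : (2 : ℝ) ^ (e + 3) * #{x ∈ range (nn M) | ¬ Good nn G e ((x : ℕ) : ℤ)} ≤ nn M := by
            exact_mod_cast h3
          rw [div_mul_eq_mul_div, one_mul, le_div_iff₀ (by positivity), mul_comm]
          exact h4
      _ = (∑ e ∈ range M, (1 : ℝ) / 2 ^ (e + 3)) * nn M := by rw [Finset.sum_mul]
      _ ≤ (1 / 4 : ℝ) * nn M := by
          have := geom_quarter M
          gcongr
  have h3 := Finset.card_filter_add_card_filter_not (s := range (nn M))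
    (fun x => ∀ e < M, Good nn G e ((x : ℕ) : ℤ))
  rw [Finset.card_range] at h3
  have h4 : ((#((range (nn M)).filter (fun x => ∀ e < M, Good nn G e ((x : ℕ) : ℤ))) : ℕ) : ℝ) +
      (#((range (nn M)).filter (fun x => ¬ ∀ e < M, Good nn G e ((x : ℕ) : ℤ))) : ℕ) = nn M := by
    exact_mod_cast h3
  linarith

open Classical in
/-- some `B_M` is dense -/
lemma exists_dense (hd : ∀ e, pp e * nn e ∣ nn (e + 1))
    (hG : ∀ e, 2 ^ (e + 4) * (∑ i ∈ Finset.range e, G i * nn i) ≤ nn e) (M : ℕ) :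
    ∃ a b : ℤ, ((nn M : ℝ) ^ 2) / 128 ≤
      #{z ∈ range (nn M) ×ˢ range (nn M) | (((z.1 : ℕ) : ℤ), ((z.2 : ℕ) : ℤ)) ∈ BM pp nn G M a b} := by
  set A := {x ∈ range (nn M) | ∀ e < M, Good nn G e ((x : ℕ) : ℤ)} with hA
  have hAc := good_count hd hG (nn := nn) (G := G) M
  rw [← hA] at hAc
  obtain ⟨ab, hab, h⟩ := Finset.exists_le_card_fiber_of_nsmul_le_card_of_maps_to
    (s := A ×ˢ A) (t := (Finset.Ico (0 : ℤ) 8) ×ˢ (Finset.Ico (0 : ℤ) 8))
    (f := fun z => (bin (F1 pp nn M z.1 z.2), bin (F2 pp nn M z.2)))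
    (b := ((nn M : ℝ) ^ 2) / 128) (by
      intro z _
      simp only [mem_product, mem_Ico]
      exact ⟨bin_mem _, bin_mem _⟩) ⟨(0, 0), by simp⟩ (by
      rw [Finset.card_product, Finset.card_product, Int.card_Ico, nsmul_eq_mul]
      have : (0 : ℝ) ≤ nn M := by positivity
      push_cast
      have h1 : ((3 / 4 : ℝ) * nn M) * ((3 / 4 : ℝ) * nn M) ≤ (#A : ℝ) * #A := by gcongr
      norm_num
      nlinarith)
  refine ⟨ab.1, ab.2, h.trans ?_⟩
  norm_cast
  apply Finset.card_le_card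
  intro z hz
  simp only [mem_filter, mem_product, hA, mem_range] at hz ⊢
  obtain ⟨⟨⟨h1, h2⟩, h3, h4⟩, h5⟩ := hz
  refine ⟨⟨h1, h3⟩, fun e he => ⟨h2 e he, h4 e he⟩, ?_, ?_⟩
  · rw [← h5]
  · rw [← h5]

end

end Pool.Agent.H72.B
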