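import Pool.Agent.H84.B.Targets

/-!
# Module CHR of MP_02e9fb_an: characters
-/

open scoped ComplexConjugate InnerProductSpace

namespace Pool.Agent.H72.B

open Filter Topology Pool.Agent.H84.B

section

variable {Λ : Type} [CommRing Λ] {A : Type} [CommRing A] [StarRing A] [Algebra ℂ A]
    [StarModule ℂ A] {H : Type} [NormedAddCommGroup H] [InnerProductSpace ℂ H] [CompleteSpace H]
    (S : Sys Λ A H)

lemma lam_star {ψ : A} (hψ : S.IsEig ψ) (c : Y Λ) : lam S c ψ * star (lam S c ψ) = 1 := by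
  unfold lam
  have h1 : S.UA c ψ * star (S.UA c ψ) = 1 := by
    rw [← map_star, ← map_mul, hψ.2.1, map_one]
  have h2 : ψ * star ψ = 1 := hψ.2.1
  rw [star_mul, star_star]
  calc S.UA c ψ * star ψ * (ψ * star (S.UA c ψ)) = (S.UA c ψ * star (S.UA c ψ)) * (ψ * star ψ) := by
        ring
    _ = 1 := by rw [h1, h2, one_mul]

lemma lam_add (hadd : ∀ (y y' : Y Λ) (a : A), S.UA (y + y') a = S.UA y (S.UA y' a)) {ψ : A}
    (hψ : S.IsEig ψ) (c c' : Y Λ) :
    lam S (c + c') ψ = lam S c ψ * S.UA c (lam S c' ψ) := by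
  unfold lam
  have h1 : S.UA c ψ * star (S.UA c ψ) = 1 := by
    rw [← map_star, ← map_mul, hψ.2.1, map_one]
  rw [hadd, map_mul, map_star]
  calc S.UA c (S.UA c' ψ) * star ψ = S.UA c (S.UA c' ψ) * star ψ * 1 := by rw [mul_one]
    _ = S.UA c (S.UA c' ψ) * star ψ * (S.UA c ψ * star (S.UA c ψ)) := by rw [h1]
    _ = S.UA c ψ * star ψ * (S.UA c (S.UA c' ψ) * star (S.UA c ψ)) := by ring

lemma UA_fix {B : Finset ℕ} {a : A} (ha : S.ι a ∈ S.RB B) {y : Y Λ} (hy : Off y B) :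
    S.UA y a = a := by
  apply S.ι_inj
  rw [S.ι_U]
  exact ha.2 y hy

lemma VA_fix {ψ : A} (hψ : S.ι ψ ∈ S.HB ∅) (σ : FP) : S.VA σ ψ = ψ := by
  apply S.ι_inj
  rw [S.ι_V]
  exact hψ σ (by simp)

lemma smul_supp (k : Λ) (g : Y Λ) : (k • g).1.support ⊆ g.1.support := by
  have : (k • g).1 = k • g.1 := rfl
  rw [this]
  exact Finsupp.support_smul

lemma pY_smul (σ : FP) (k : Λ) (g : Y Λ) : pY σ (k • g) = k • pY σ g := by
  apply Subtype.ext
  ext i
  change (k • g).1 (σ.1.symm i) = _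
  have h1 : (k • g).1 = k • g.1 := rfl
  have h2 : (k • pY σ g).1 = k • (pY σ g).1 := rfl
  rw [h1, h2, Finsupp.smul_apply, Finsupp.smul_apply, pY_apply]

end

theorem chr (hbasic : T_basic) (hBd : T_Bd) (hRB : T_RBind) : T_CHR := by
  intro Λ _ A _ _ _ _ H _ _ _ S k1 k2 P hP1 hP2
  obtain ⟨htr, -, -, -, -, -, -, -, -, -, -, -, -, -, -, hRmul, -, -, hUA0, hUAadd, hVU, -, htrV⟩ :=
    hBd Λ A H S
  obtain ⟨-, hRmono, -⟩ := hbasic Λ H S.toRep
  have hlam : ∀ (k : Λ) (g : Y Λ) (ψ : A), S.IsEig ψ → S.ι (lam S (k • g) ψ) ∈ S.RB g.1.support :=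
    fun k g ψ hψ => hRmono _ _ (smul_supp k g) (hψ.2.2 (k • g))
  have hchi : ∀ g, S.ι (Pool.Agent.H84.B.chr S k1 k2 g P) ∈ S.RB g.1.support := fun g =>
    hRmul _ _ _ (hlam k1 g _ hP1) (hlam k2 g _ hP2)
  have hun : ∀ g, Pool.Agent.H84.B.chr S k1 k2 g P * star (Pool.Agent.H84.B.chr S k1 k2 g P) = 1 := by
    intro g
    unfold Pool.Agent.H84.B.chr
    rw [star_mul]
    calc lam S (k1 • g) P.1 * lam S (k2 • g) P.2 *
          (star (lam S (k2 • g) P.2) * star (lam S (k1 • g) P.1))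
        = (lam S (k1 • g) P.1 * star (lam S (k1 • g) P.1)) *
          (lam S (k2 • g) P.2 * star (lam S (k2 • g) P.2)) := by ring
      _ = 1 := by rw [lam_star S hP1, lam_star S hP2, one_mul]
  have hnorm : ∀ g, ‖S.ι (Pool.Agent.H84.B.chr S k1 k2 g P)‖ = 1 := by
    intro g
    have h1 := htr (Pool.Agent.H84.B.chr S k1 k2 g P) (Pool.Agent.H84.B.chr S k1 k2 g P)
    rw [mul_comm, hun g] at h1
    have h2 : S.tr 1 = 1 := by
      unfold Sys.tr
      rw [inner_self_eq_norm_sq_to_K, S.norm_one]; simp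
    rw [h2] at h1
    have h3 : ‖S.ι (Pool.Agent.H84.B.chr S k1 k2 g P)‖ ^ 2 = 1 := by
      rw [← inner_self_eq_norm_sq (𝕜 := ℂ) (S.ι (Pool.Agent.H84.B.chr S k1 k2 g P)), ← h1]
      simp
    have h4 := norm_nonneg (S.ι (Pool.Agent.H84.B.chr S k1 k2 g P))
    nlinarith
  have hlam_dsj : ∀ (k : Λ) (g g' : Y Λ) (ψ : A), S.IsEig ψ → Dsj g g' →
      lam S (k • (g + g')) ψ = lam S (k • g) ψ * lam S (k • g') ψ := by
    intro k g g' ψ hψ hd
    rw [smul_add, lam_add S hUAadd hψ]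
    congr 1
    refine UA_fix S (hlam k g' ψ hψ) ?_
    exact Finset.disjoint_of_subset_left (smul_supp k g) hd
  have hmul : ∀ g g', Dsj g g' → Pool.Agent.H84.B.chr S k1 k2 (g + g') P =
      Pool.Agent.H84.B.chr S k1 k2 g P * Pool.Agent.H84.B.chr S k1 k2 g' P := by
    intro g g' hd
    unfold Pool.Agent.H84.B.chr
    rw [hlam_dsj k1 g g' _ hP1 hd, hlam_dsj k2 g g' _ hP2 hd]
    ring
  refine ⟨hchi, hun, ?_, ?_, ?_, hmul, ?_, ?_⟩
  · intro g
    unfold Sys.tr
    calc ‖⟪S.ι 1, S.ι (Pool.Agent.H84.B.chr S k1 k2 g P)⟫_ℂ‖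
        ≤ ‖S.ι 1‖ * ‖S.ι (Pool.Agent.H84.B.chr S k1 k2 g P)‖ := norm_inner_le_norm _ _
      _ = 1 := by rw [S.norm_one, hnorm g, one_mul]
  · intro g hg
    apply S.ι_inj
    rw [map_smul]
    have h1 : ‖S.ι (Pool.Agent.H84.B.chr S k1 k2 g P) -
        S.tr (Pool.Agent.H84.B.chr S k1 k2 g P) • S.ι 1‖ ^ 2 = 0 := by
      rw [@norm_sub_sq ℂ]
      rw [norm_smul, hnorm g, S.norm_one, hg]
      have : ⟪S.ι (Pool.Agent.H84.B.chr S k1 k2 g P),
          S.tr (Pool.Agent.H84.B.chr S k1 k2 g P) • S.ι 1⟫_ℂ = 1 := by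
        rw [inner_smul_right, ← inner_conj_symm]
        change S.tr _ * conj (S.tr _) = 1
        rw [Complex.mul_conj, Complex.normSq_eq_norm_sq, hg]
        simp
      rw [this]
      simp
      norm_num
    have h2 := pow_eq_zero_iff (two_ne_zero) |>.mp h1
    exact sub_eq_zero.mp (norm_eq_zero.mp h2)
  · unfold Pool.Agent.H84.B.chr lam
    rw [smul_zero, smul_zero, hUA0, hUA0, hP1.2.1, hP2.2.1, one_mul]
  · intro g g' hd
    rw [hmul g g' hd]
    obtain ⟨-, -, h3, -, -⟩ := hRB Λ A H S g.1.support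
    exact h3 g'.1.support _ _ hd (hchi g) (hchi g').1
  · rintro g g' ⟨σ, rfl⟩
    have h1 : Pool.Agent.H84.B.chr S k1 k2 (pY σ g) P = S.VA σ (Pool.Agent.H84.B.chr S k1 k2 g P) := by
      unfold Pool.Agent.H84.B.chr lam
      rw [map_mul, map_mul, map_mul, map_star, map_star, VA_fix S hP1.1, VA_fix S hP2.1, hVU, hVU,
        VA_fix S hP1.1, VA_fix S hP2.1, pY_smul, pY_smul]
    rw [h1, htrV]

theorem wit (hBd : T_Bd) (hALG : T_ALG) : T_WIT := by
  intro Λ _ A _ _ _ _ H _ _ _ S p _ ρ k1 k2 P ζ hp2 hk1 hk2 hk12 hP1 hP2 hζ hall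
  obtain ⟨-, -, -, -, -, -, -, -, -, -, -, -, -, -, -, -, -, -, hUA0, hUAadd, -⟩ :=
    hBd Λ A H S
  have hζ0 : ζ ≠ 0 := by
    intro h; rw [h] at hζ; simp at hζ
  -- the group
  let act : Y Λ → Additive Aˣ →+ Additive Aˣ := fun y =>
    MonoidHom.toAdditive (Units.map (S.UA y : A →* A))
  let D1 : Y Λ → Additive Aˣ := fun y =>
    Additive.ofMul (Units.mkOfMulEqOne (lam S y P.1) (star (lam S y P.1)) (lam_star S hP1 y))
  let D2 : Y Λ → Additive Aˣ := fun y =>
    Additive.ofMul (Units.mkOfMulEqOne (lam S y P.2) (star (lam S y P.2)) (lam_star S hP2 y))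
  let κ : Additive Aˣ := Additive.ofMul (Units.mkOfMulEqOne (ζ • (1 : A)) (ζ⁻¹ • (1 : A)) (by
    rw [smul_mul_smul_comm, one_mul, mul_inv_cancel₀ hζ0, one_smul]))
  have hκ : κ = 0 := by
    apply hALG p Λ ρ (Additive Aˣ) act D1 D2 k1 k2 κ hp2 hk1 hk2 hk12
    · intro x
      apply Additive.toMul.injective
      apply Units.ext
      change S.UA 0 _ = _
      rw [hUA0]
    · intro y y' x
      apply Additive.toMul.injective
      apply Units.ext
      change S.UA (y + y') _ = S.UA y (S.UA y' _)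
      rw [hUAadd]
    · intro y y'
      apply Additive.toMul.injective
      apply Units.ext
      change lam S (y + y') P.1 = lam S y P.1 * S.UA y (lam S y' P.1)
      exact lam_add S hUAadd hP1 y y'
    · intro y y'
      apply Additive.toMul.injective
      apply Units.ext
      change lam S (y + y') P.2 = lam S y P.2 * S.UA y (lam S y' P.2)
      exact lam_add S hUAadd hP2 y y'
    · intro y u hyu
      apply Additive.toMul.injective
      apply Units.ext
      change S.UA u (lam S y P.1) = lam S y P.1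
      exact UA_fix S (hP1.2.2 y) (Disjoint.symm hyu)
    · intro y u hyu
      apply Additive.toMul.injective
      apply Units.ext
      change S.UA u (lam S y P.2) = lam S y P.2
      exact UA_fix S (hP2.2.2 y) (Disjoint.symm hyu)
    · intro u
      apply Additive.toMul.injective
      apply Units.ext
      change S.UA u (ζ • (1 : A)) = ζ • (1 : A)
      rw [map_smul, map_one]
    · intro b t hb ht
      apply Additive.toMul.injective
      apply Units.ext
      have h1 := hall b t hb ht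
      unfold Pool.Agent.H84.B.chr at h1
      change lam S (k1 • b) P.1 * lam S (k2 • b) P.2 = ((ζ • (1 : A)) ^ t)
      rw [h1, smul_pow, one_pow]
  have h1 : ζ • (1 : A) = 1 := by
    have : (κ.toMul : Aˣ) = 1 := by rw [hκ]; rfl
    have h2 := congrArg Units.val this
    exact h2
  have h2 : (ζ - 1) • S.ι 1 = 0 := by
    rw [sub_smul, one_smul, ← map_smul, h1, sub_self]
  rcases smul_eq_zero.mp h2 with h3 | h3
  · exact sub_eq_zero.mp h3
  · exfalso
    have := S.norm_one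
    rw [h3, norm_zero] at this
    exact zero_ne_one this

end Pool.Agent.H72.B
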