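import Pool.Agent.H84.B.TargetsM

/-!
# Module POW of MP_02e9fb_an: powers
-/

namespace Pool.Agent.H72.B

open Filter Topology MeasureTheory Pool.Agent.H84.B

universe u

theorem pow (hZ : T_Zp) (hE : T_Exh) (h1 : T_C1.{u}) (h2 : T_C2) (hM : T_MainMS) :
    T_Powers.{u} := by
  intro p _ X _ μ T A k1 k2 nn G hp2 hk1 hk2 hk12 hμ hT hA hμA hG
  by_contra hcon
  push Not at hcon
  obtain ⟨Λ, iR, iC, iN, ρ, Q, hQ1, hQ2, hun⟩ := hZ p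
  obtain ⟨β, hβ⟩ := hE p Λ ρ
  obtain ⟨m, hm1, hm2, hm3⟩ := h1 p Λ ρ Q X μ T A k1 k2 nn G hQ1 hQ2 hμ hT hA hG hcon
  obtain ⟨ν, M, E, hEm, hEV, hEν, hL1, hL2, hzero⟩ := h2 p Λ ρ β (k1 : Λ) (k2 : Λ) m hm1
    (by rw [hm2]; exact hμA) hm3
  refine hM Λ (Om Λ) ν M p ρ β (k1 : Λ) (k2 : Λ) E hp2 hβ (hun k1 hk1) (hun k2 hk2) ?_ hEm hEV hEν
    hL1 hL2 hzero
  have := hun (k1 - k2) (by push_cast; exact sub_ne_zero.mpr hk12)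
  push_cast at this
  exact this

end Pool.Agent.H72.B
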